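import Mathlib
import Pool.Agent.R985.LG2
open MeasureTheory ProbabilityTheory Filter Topology Pool.Agent.R985.LG

namespace Pool.Agent.Results.MP_383407_pr.OccupationTimeSmaller

/-- One step of symmetric line growth with threshold `r` and radius `ρ`: a site becomes occupied
if it sees at least `r` occupied sites on its horizontal arm `x + [-ρ, ρ] × {0}` or at least `r`
occupied sites on its vertical arm `x + {0} × [-ρ, ρ]`. -/
def step (r ρ : ℕ) (ξ : Set (ℤ × ℤ)) : Set (ℤ × ℤ) :=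
  ξ ∪ {x | r ≤ (ξ ∩ {y | y.2 = x.2 ∧ |y.1 - x.1| ≤ (ρ : ℤ)}).ncard ∨
    r ≤ (ξ ∩ {y | y.1 = x.1 ∧ |y.2 - x.2| ≤ (ρ : ℤ)}).ncard}

/-- The occupied set `ξ_t` started from `ξ₀`. -/
def occ (r ρ : ℕ) (ξ₀ : Set (ℤ × ℤ)) (t : ℕ) : Set (ℤ × ℤ) := (step r ρ)^[t] ξ₀

/-- The first time `T` the origin is occupied (`⊤` if it never is), when the initially occupied
set is `{x | ω x = true}`. -/
noncomputable def T (r ρ : ℕ) (ω : ℤ × ℤ → Bool) : ℕ∞ :=
  ⨅ t ∈ {t : ℕ | (0, 0) ∈ occ r ρ {x | ω x = true} t}, (t : ℕ∞)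

/-- The law of a `Bernoulli(p)` variable. -/
noncomputable def coin (p : ℝ) : Measure Bool :=
  ENNReal.ofReal p • Measure.dirac true + ENNReal.ofReal (1 - p) • Measure.dirac false

/-- The law of the initial configuration: each site of `ℤ²` is occupied independently with
probability `p`. -/
noncomputable def law (p : ℝ) : Measure (ℤ × ℤ → Bool) := Measure.infinitePi fun _ => coin p

/-! ### deterministic part -/

lemma fin_h (a c : ℤ) (ρ : ℕ) : {y : ℤ × ℤ | y.2 = c ∧ |y.1 - a| ≤ (ρ : ℤ)}.Finite := by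
  apply Set.Finite.subset ((Set.finite_Icc (a - ρ) (a + ρ)).prod (Set.finite_singleton c))
  rintro ⟨y1, y2⟩ ⟨h1, h2⟩
  simp only at h1 h2
  rw [abs_le] at h2
  simp only [Set.mem_prod, Set.mem_Icc, Set.mem_singleton_iff]
  exact ⟨⟨by linarith, by linarith⟩, h1⟩

lemma fin_v (a c : ℤ) (ρ : ℕ) : {y : ℤ × ℤ | y.1 = c ∧ |y.2 - a| ≤ (ρ : ℤ)}.Finite := by
  apply Set.Finite.subset ((Set.finite_singleton c).prod (Set.finite_Icc (a - ρ) (a + ρ)))
  rintro ⟨y1, y2⟩ ⟨h1, h2⟩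
  simp only at h1 h2
  rw [abs_le] at h2
  simp only [Set.mem_prod, Set.mem_Icc, Set.mem_singleton_iff]
  exact ⟨h1, ⟨by linarith, by linarith⟩⟩

lemma grow (r ρ k : ℕ) (ξ : Set (ℤ × ℤ)) (u v v₁ : ℤ)
    (h1 : ∀ j : ℕ, j < r → P k u (v₁ + j) ∈ ξ) (h2 : ∀ j : ℕ, j < r → |v₁ + j - v| ≤ (ρ : ℤ)) :
    P k u v ∈ step r ρ ξ := by
  classical
  set A : Finset (ℤ × ℤ) := (Finset.range r).image fun j : ℕ => P k u (v₁ + j) with hA
  have hcard : A.card = r := by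
    rw [hA, Finset.card_image_of_injective]
    · simp
    · intro j j' h
      have := (P_inj _ _ _ _ _ h).2
      omega
  right
  by_cases hk : Even k
  · left
    have hsub : (A : Set (ℤ × ℤ)) ⊆
        ξ ∩ {y | y.2 = (P k u v).2 ∧ |y.1 - (P k u v).1| ≤ (ρ : ℤ)} := by
      intro x hx
      obtain ⟨j, hj, rfl⟩ := Finset.mem_image.mp (Finset.mem_coe.mp hx)
      have hj' := Finset.mem_range.mp hj
      refine ⟨h1 j hj', ?_⟩
      simp only [P, hk, if_true, Set.mem_ofPred_eq, true_and]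
      exact h2 j hj'
    have := Set.ncard_le_ncard hsub ((fin_h _ _ _).inter_of_right _)
    rwa [Set.ncard_coe_finset, hcard] at this
  · right
    have hsub : (A : Set (ℤ × ℤ)) ⊆
        ξ ∩ {y | y.1 = (P k u v).1 ∧ |y.2 - (P k u v).2| ≤ (ρ : ℤ)} := by
      intro x hx
      obtain ⟨j, hj, rfl⟩ := Finset.mem_image.mp (Finset.mem_coe.mp hx)
      have hj' := Finset.mem_range.mp hj
      refine ⟨h1 j hj', ?_⟩
      simp only [P, hk, if_false, Set.mem_ofPred_eq, true_and]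
      exact h2 j hj'
    have := Set.ncard_le_ncard hsub ((fin_v _ _ _).inter_of_right _)
    rwa [Set.ncard_coe_finset, hcard] at this

lemma occ_succ (r ρ : ℕ) (ξ₀ : Set (ℤ × ℤ)) (t : ℕ) :
    occ r ρ ξ₀ (t + 1) = step r ρ (occ r ρ ξ₀ t) := by
  unfold occ; rw [Function.iterate_succ_apply']

lemma occ_mono (r ρ : ℕ) (ξ₀ : Set (ℤ × ℤ)) {t t' : ℕ} (h : t ≤ t') :
    occ r ρ ξ₀ t ⊆ occ r ρ ξ₀ t' := by
  induction t', h using Nat.le_induction with
  | base => exact subset_rfl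
  | succ n _ ih =>
    rw [occ_succ]
    exact ih.trans Set.subset_union_left

lemma spread (r ρ k : ℕ) (hr : 1 ≤ r) (hρ : r ≤ ρ) (ξ₀ : Set (ℤ × ℤ)) (t : ℕ) (u v₀ : ℤ)
    (h : ∀ j : ℕ, j < r → P k u (v₀ + j) ∈ occ r ρ ξ₀ t) (d : ℕ) :
    ∀ v, v₀ - d ≤ v → v ≤ v₀ + (r - 1) + d → P k u v ∈ occ r ρ ξ₀ (t + d) := by
  induction d with
  | zero =>
    intro v h1 h2
    obtain ⟨j, hj⟩ : ∃ j : ℕ, v = v₀ + j := ⟨(v - v₀).toNat, by omega⟩
    subst hj
    exact h j (by omega)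
  | succ d ih =>
    intro v h1 h2
    rw [← add_assoc, occ_succ]
    by_cases ha : v₀ - d ≤ v
    · by_cases hb : v ≤ v₀ + (r - 1) + d
      · exact Set.subset_union_left (ih v ha hb)
      · refine grow r ρ k _ u v (v₀ + d) ?_ ?_
        · intro j hj
          exact ih _ (by omega) (by omega)
        · intro j hj
          rw [abs_le]; constructor <;> push_cast at * <;> omega
    · refine grow r ρ k _ u v (v₀ - d) ?_ ?_
      · intro j hj
        exact ih _ (by omega) (by omega)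
      · intro j hj
        rw [abs_le]; constructor <;> push_cast at * <;> omega

lemma fill (r ρ k : ℕ) (hr : 1 ≤ r) (hρ : r ≤ ρ) (ξ₀ : Set (ℤ × ℤ)) (t L : ℕ) (u v₀ : ℤ)
    (h0 : 0 ≤ v₀) (hL : v₀ ≤ L)
    (h : ∀ j : ℕ, j < r → P k u (v₀ + j) ∈ occ r ρ ξ₀ t) (v : ℤ) (hv0 : 0 ≤ v) (hvL : v ≤ L) :
    P k u v ∈ occ r ρ ξ₀ (t + L) :=
  spread r ρ k hr hρ ξ₀ t u v₀ h L v (by omega) (by omega)

lemma U_add (r n k b s : ℕ) : U r n k b s = U r n k b 0 + s := by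
  unfold U; push_cast; ring

lemma block_full (r ρ n I : ℕ) (hr : 1 ≤ r) (hρ : r ≤ ρ) (ω : ℤ × ℤ → Bool) :
    ∀ k ≤ I, ∀ b ∈ SS r n k ω, ∀ s < r - 1, ∀ v : ℤ, 0 ≤ v → v ≤ (((I + 1) * (r * n) : ℕ) : ℤ) →
      P k (U r n k b s) v ∈ occ r ρ {x | ω x = true} ((k + 1) * ((I + 1) * (r * n))) := by
  intro k
  induction k with
  | zero =>
    intro _ b hb s hs v hv0 hvL
    simp only [SS, fullSet, Finset.mem_filter, Finset.mem_univ, true_and] at hb
    obtain ⟨c, hc⟩ := hb ⟨s, hs⟩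
    have hp := U_pos r n 0 c 0
    have h1 := fill r ρ 0 hr hρ {x | ω x = true} 0 ((I + 1) * (r * n)) (U r n 0 b s)
      (U r n 0 c 0) (by linarith) (U_le c.2 (by omega) (Nat.zero_le _)) (by
        intro j hj
        rw [← U_add]
        exact hc ⟨j, hj⟩) v hv0 hvL
    simpa using h1
  | succ k ih =>
    intro hk b hb s hs v hv0 hvL
    simp only [SS, fullSet, Finset.mem_filter, Finset.mem_univ, true_and] at hb
    obtain ⟨c, hc, hc'⟩ := hb ⟨s, hs⟩
    have hc'' := hc' 0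
    have hp := U_pos r n k c 0
    have h1 := fill r ρ (k + 1) hr hρ {x | ω x = true} ((k + 1) * ((I + 1) * (r * n)))
      ((I + 1) * (r * n)) (U r n (k + 1) b s)
      (U r n k c 0) (by linarith) (U_le c.2 (by omega) (by omega)) (by
        intro j hj
        rw [← U_add]
        by_cases hj' : j < r - 1
        · rw [P_succ]
          have hp2 := U_pos r n (k + 1) b s
          exact ih (by omega) c hc j hj' _ (by linarith) (U_le b.2 (by omega) hk)
        · have : j = r - 1 := by omega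
          subst this
          exact occ_mono r ρ _ (Nat.zero_le _) hc'') v hv0 hvL
    have h2 : (k + 1) * ((I + 1) * (r * n)) + (I + 1) * (r * n) =
        (k + 1 + 1) * ((I + 1) * (r * n)) := by ring
    rwa [h2] at h1

lemma origin_occ (r ρ n I : ℕ) (hr : 1 ≤ r) (hρ : r ≤ ρ) (ω : ℤ × ℤ → Bool)
    (h : ∃ c ∈ SS r n I ω, ω (P (I + 1) 0 (U r n I c (r - 1))) = true) :
    (0, 0) ∈ occ r ρ {x | ω x = true} ((I + 2) * ((I + 1) * (r * n))) := by
  obtain ⟨c, hc, hc'⟩ := h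
  have hp := U_pos r n I c 0
  have h1 := fill r ρ (I + 1) hr hρ {x | ω x = true} ((I + 1) * ((I + 1) * (r * n)))
    ((I + 1) * (r * n)) 0 (U r n I c 0) (by linarith) (U_le c.2 (by omega) le_rfl) (by
      intro j hj
      rw [← U_add]
      by_cases hj' : j < r - 1
      · rw [P_succ]
        exact block_full r ρ n I hr hρ ω I le_rfl c hc j hj' 0 le_rfl (by positivity)
      · have : j = r - 1 := by omega
        subst this
        exact occ_mono r ρ _ (Nat.zero_le _) hc') 0 le_rfl (by positivity)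
  have h2 : (I + 1) * ((I + 1) * (r * n)) + (I + 1) * (r * n) =
      (I + 2) * ((I + 1) * (r * n)) := by ring
  rw [h2] at h1
  have h3 : P (I + 1) 0 0 = ((0 : ℤ), (0 : ℤ)) := by unfold P; split_ifs <;> rfl
  rwa [h3] at h1

lemma T_le (r ρ t : ℕ) (ω : ℤ × ℤ → Bool) (h : (0, 0) ∈ occ r ρ {x | ω x = true} t) :
    T r ρ ω ≤ t := by
  unfold T
  exact iInf₂_le t h

/-! ### the coin -/

lemma coin_prob (p : ℝ) (h0 : 0 ≤ p) (h1 : p ≤ 1) : IsProbabilityMeasure (coin p) := by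
  constructor
  unfold coin
  simp only [Measure.coe_add, Measure.coe_smul, Pi.add_apply, Pi.smul_apply, measure_univ,
    smul_eq_mul, mul_one]
  rw [← ENNReal.ofReal_add h0 (by linarith)]
  simp

lemma coin_true (p : ℝ) (h0 : 0 ≤ p) : (coin p).real {true} = p := by
  unfold coin Measure.real
  simp [h0]

/-- quantitative bound at fixed parameters. -/
lemma fail_bound (r ρ n : ℕ) (hr : 1 ≤ r) (hρ : r ≤ ρ) (p : ℝ) (hp0 : 0 ≤ p) (hp1 : p ≤ 1)
    (K : ℕ → ℝ) (hK : ∀ k, 0 < K k) (I t : ℕ) (ht : (I + 2) * ((I + 1) * (r * n)) ≤ t)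
    (h0 : 2 * K 0 ≤ n * (1 - (1 - p ^ r) ^ n) ^ (r - 1))
    (hs : ∀ k < I, ∀ j : ℕ, K k ≤ j → 2 * K (k + 1) ≤ n * (1 - (1 - p) ^ j) ^ (r - 1)) :
    1 - ((∑ i ∈ Finset.range (I + 1), 2 / K i) + Real.exp (-(p * K I))) ≤
      (law p).real {ω | T r ρ ω ≤ t} := by
  haveI := coin_prob p hp0 hp1
  have h1 := final (coin p) p (coin_true p hp0) r n (by omega) hp0 hp1 K hK I h0 hs
  change (law p).real _ ≤ _ at h1
  haveI : IsProbabilityMeasure (law p) := by unfold law; infer_instance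
  set B : Set (ℤ × ℤ → Bool) :=
    {ω | ¬ ∃ c ∈ SS r n I ω, ω (P (I + 1) 0 (U r n I c (r - 1))) = true} with hB
  have hsub : Bᶜ ⊆ {ω | T r ρ ω ≤ t} := by
    intro ω hω
    simp only [hB, Set.mem_compl_iff, Set.mem_ofPred_eq, not_not] at hω
    have h2 := origin_occ r ρ n I hr hρ ω hω
    exact T_le r ρ t ω (occ_mono r ρ _ ht h2)
  have h3 : (law p).real Bᶜ ≤ (law p).real {ω | T r ρ ω ≤ t} := measureReal_mono hsub
  have h4 : 1 ≤ (law p).real B + (law p).real Bᶜ := by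
    have := measureReal_union_le (μ := law p) B Bᶜ
    rw [Set.union_compl_self, probReal_univ] at this
    exact this
  linarith

/-! ### choice of the parameters -/

lemma exp_neg_le {y : ℝ} (h0 : 0 ≤ y) (h1 : y ≤ 1) : Real.exp (-y) ≤ 1 - y / 2 := by
  have h2 : 1 + y ≤ Real.exp y := by linarith [Real.add_one_le_exp y]
  rw [Real.exp_neg, inv_le_comm₀ (Real.exp_pos y) (by linarith)]
  refine le_trans ?_ h2
  rw [inv_le_iff_one_le_mul₀ (by linarith)]
  nlinarith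

lemma pow_le_exp {q : ℝ} (h1 : q ≤ 1) (j : ℕ) : (1 - q) ^ j ≤ Real.exp (-(q * j)) := by
  calc (1 - q) ^ j ≤ (Real.exp (-q)) ^ j :=
        pow_le_pow_left₀ (by linarith) (by linarith [Real.add_one_le_exp (-q)]) _
    _ = Real.exp (-(q * j)) := by rw [← Real.exp_nat_mul]; ring_nf

lemma fixed (r ρ n J t : ℕ) (hr : 3 ≤ r) (hρ : r ≤ ρ) (p A : ℝ) (hp0 : 0 < p) (hp1 : p ≤ 1)
    (hA : 8 ≤ A) (hAp : A * p ≤ 1) (hn : A * (1 / p) ^ (r - 1) ≤ n)
    (hJ1 : ∀ k < J, A ^ (2 ^ k) * p < 1) (hJ2 : 1 ≤ A ^ (2 ^ J) * p)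
    (ht : (J + 3) * ((J + 2) * (r * n)) ≤ t) :
    1 - (4 / A + 3 * 2 ^ r * p) ≤ (law p).real {ω | T r ρ ω ≤ t} := by
  obtain ⟨m, rfl⟩ : ∃ m, r = m + 1 := ⟨r - 1, by omega⟩
  simp only [Nat.add_sub_cancel] at hn
  have hm : 2 ≤ m := by omega
  have hip : 1 ≤ 1 / p := by rw [le_div_iff₀ hp0]; linarith
  have hnpos : (0 : ℝ) < n := lt_of_lt_of_le (by positivity) hn
  have hnp : 1 / p ≤ p * n := by
    have h1 : (1 / p) ^ m = (1 / p) ^ (m - 2) * (1 / p) ^ 2 := by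
      rw [← pow_add]; congr 1; omega
    have h2 : (1 : ℝ) ≤ (1 / p) ^ (m - 2) := one_le_pow₀ hip
    have h3 : (1 / p) ^ 2 ≤ n := by
      refine le_trans ?_ hn
      rw [h1]
      have : (0 : ℝ) ≤ (1 / p) ^ 2 := by positivity
      nlinarith [mul_le_mul_of_nonneg_right h2 this]
    calc 1 / p = p * (1 / p) ^ 2 := by field_simp
      _ ≤ p * n := by gcongr
  set K : ℕ → ℝ := fun k => if k ≤ J then A ^ (2 ^ k) else n / 2 ^ (m + 1) with hK
  have hApos : 0 < A := by linarith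
  have hKpos : ∀ k, 0 < K k := by
    intro k
    simp only [hK]
    split_ifs <;> positivity
  have key := fail_bound (m + 1) ρ n (by omega) hρ p hp0.le hp1 K hKpos (J + 1) t (by
      have : J + 1 + 2 = J + 3 := by ring
      rw [this]; exact ht) (by
    -- stage 0
    have hK0 : K 0 = A := by simp [hK]
    rw [hK0]
    simp only [Nat.add_sub_cancel]
    have e1 : (1 - p ^ (m + 1)) ^ n ≤ 1 - A * p / 2 := by
      calc (1 - p ^ (m + 1)) ^ n ≤ Real.exp (-(p ^ (m + 1) * n)) :=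
            pow_le_exp (pow_le_one₀ hp0.le hp1) n
        _ ≤ Real.exp (-(A * p)) := by
          apply Real.exp_le_exp.mpr
          have : A * p = p ^ (m + 1) * (A * (1 / p) ^ m) := by
            rw [one_div, inv_pow]; field_simp; ring
          rw [this]
          have h4 := mul_le_mul_of_nonneg_left hn (by positivity : (0 : ℝ) ≤ p ^ (m + 1))
          linarith
        _ ≤ 1 - A * p / 2 := exp_neg_le (by positivity) hAp
    have e2 : (A * p / 2) ^ m ≤ (1 - (1 - p ^ (m + 1)) ^ n) ^ m :=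
      pow_le_pow_left₀ (by positivity) (by linarith) m
    have e3 : A * (A / 2) ^ m ≤ n * (A * p / 2) ^ m := by
      have : A * (A / 2) ^ m = A * (1 / p) ^ m * (A * p / 2) ^ m := by
        rw [mul_assoc, ← mul_pow]; congr 2; field_simp
      rw [this]
      exact mul_le_mul_of_nonneg_right hn (by positivity)
    have e4 : 2 ≤ (A / 2) ^ m := by
      calc (2 : ℝ) ≤ (A / 2) := by linarith
        _ = (A / 2) ^ 1 := by ring
        _ ≤ (A / 2) ^ m := pow_le_pow_right₀ (by linarith) (by omega)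
    calc 2 * A ≤ A * (A / 2) ^ m := by nlinarith
      _ ≤ n * (A * p / 2) ^ m := e3
      _ ≤ n * (1 - (1 - p ^ (m + 1)) ^ n) ^ m := by gcongr) (by
    intro k hk j hj
    simp only [Nat.add_sub_cancel]
    by_cases hkJ : k < J
    · have hKk : K k = A ^ (2 ^ k) := by simp [hK, hkJ.le]
      have hKk1 : K (k + 1) = (A ^ (2 ^ k)) ^ 2 := by
        simp only [hK, Nat.succ_le_of_lt hkJ, if_true]
        rw [← pow_mul]; congr 1
      rw [hKk] at hj
      rw [hKk1]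
      have hap := hJ1 k hkJ
      set a : ℝ := A ^ (2 ^ k) with ha
      have haA : A ≤ a := by
        rw [ha]
        calc A = A ^ 1 := by ring
          _ ≤ A ^ (2 ^ k) := pow_le_pow_right₀ (by linarith) Nat.one_le_two_pow
      have e1 : (1 - p) ^ j ≤ 1 - a * p / 2 := by
        calc (1 - p) ^ j ≤ Real.exp (-(p * j)) := pow_le_exp hp1 j
          _ ≤ Real.exp (-(a * p)) := by
            apply Real.exp_le_exp.mpr
            nlinarith
          _ ≤ 1 - a * p / 2 := exp_neg_le (by positivity) hap.le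
      have e2 : (a * p / 2) ^ m ≤ (1 - (1 - p) ^ j) ^ m :=
        pow_le_pow_left₀ (by positivity) (by linarith) m
      have e3 : A * (a / 2) ^ m ≤ n * (a * p / 2) ^ m := by
        have : A * (a / 2) ^ m = A * (1 / p) ^ m * (a * p / 2) ^ m := by
          rw [mul_assoc, ← mul_pow]; congr 2; field_simp
        rw [this]
        exact mul_le_mul_of_nonneg_right hn (by positivity)
      have e4 : (a / 2) ^ 2 ≤ (a / 2) ^ m := pow_le_pow_right₀ (by linarith) hm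
      calc 2 * a ^ 2 ≤ A * (a / 2) ^ 2 := by nlinarith [sq_nonneg a]
        _ ≤ A * (a / 2) ^ m := by gcongr
        _ ≤ n * (a * p / 2) ^ m := e3
        _ ≤ n * (1 - (1 - p) ^ j) ^ m := by gcongr
    · have hkJ' : k = J := by omega
      subst hkJ'
      have hKk : K k = A ^ (2 ^ k) := by simp [hK]
      have hKk1 : K (k + 1) = n / 2 ^ (m + 1) := by simp [hK]
      rw [hKk] at hj
      rw [hKk1]
      have e1 : (1 - p) ^ j ≤ 1 / 2 := by
        calc (1 - p) ^ j ≤ Real.exp (-(p * j)) := pow_le_exp hp1 j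
          _ ≤ Real.exp (-1) := by
            apply Real.exp_le_exp.mpr
            nlinarith
          _ ≤ 1 / 2 := by
            have := exp_neg_le (y := 1) (by norm_num) le_rfl
            linarith
      have e2 : (1 / 2 : ℝ) ^ m ≤ (1 - (1 - p) ^ j) ^ m :=
        pow_le_pow_left₀ (by norm_num) (by linarith) m
      calc 2 * ((n : ℝ) / 2 ^ (m + 1)) = n * (1 / 2) ^ m := by
            rw [one_div, inv_pow, pow_succ]; field_simp
        _ ≤ n * (1 - (1 - p) ^ j) ^ m := by gcongr)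
  refine le_trans ?_ key
  have hKJ : K (J + 1) = n / 2 ^ (m + 1) := by simp [hK]
  have s1 : ∑ i ∈ Finset.range (J + 1), 2 / K i ≤ 4 / A := by
    calc ∑ i ∈ Finset.range (J + 1), 2 / K i
        ≤ ∑ i ∈ Finset.range (J + 1), (2 / A) * (1 / 2) ^ i := by
          refine Finset.sum_le_sum fun i hi => ?_
          have hi' : i ≤ J := by have := Finset.mem_range.mp hi; omega
          have hKi : K i = A ^ (2 ^ i) := by simp [hK, hi']
          rw [hKi]
          have h5 : A * 2 ^ i ≤ A ^ (2 ^ i) := by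
            calc A * 2 ^ i ≤ A * A ^ i := by
                  gcongr; linarith
              _ = A ^ (i + 1) := by ring
              _ ≤ A ^ (2 ^ i) := pow_le_pow_right₀ (by linarith) Nat.lt_two_pow_self
          calc 2 / A ^ (2 ^ i) ≤ 2 / (A * 2 ^ i) := by gcongr
            _ = (2 / A) * (1 / 2) ^ i := by rw [one_div, inv_pow]; field_simp
      _ = (2 / A) * ∑ i ∈ Finset.range (J + 1), (1 / 2 : ℝ) ^ i := by rw [Finset.mul_sum]
      _ ≤ (2 / A) * 2 := by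
        gcongr
        rw [geom_sum_eq (by norm_num)]
        have : (0 : ℝ) ≤ (1 / 2) ^ (J + 1) := by positivity
        rw [div_le_iff_of_neg (by norm_num)]
        linarith
      _ = 4 / A := by ring
  have s2 : 2 / K (J + 1) ≤ 2 * 2 ^ (m + 1) * p := by
    rw [hKJ]
    have h6 : 1 / p ≤ n := by nlinarith
    have h7 : 1 ≤ n * p := by
      rw [div_le_iff₀ hp0] at h6; exact h6
    rw [div_div_eq_mul_div, div_le_iff₀ hnpos]
    have h8 : (0 : ℝ) ≤ 2 * 2 ^ (m + 1) := by positivity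
    nlinarith [mul_le_mul_of_nonneg_left h7 h8]
  have s3 : Real.exp (-(p * K (J + 1))) ≤ 2 ^ (m + 1) * p := by
    rw [hKJ]
    have h9 : 1 / p / 2 ^ (m + 1) ≤ p * (n / 2 ^ (m + 1)) := by
      rw [← mul_div_assoc]; gcongr
    calc Real.exp (-(p * (n / 2 ^ (m + 1)))) ≤ Real.exp (-(1 / p / 2 ^ (m + 1))) :=
          Real.exp_le_exp.mpr (by linarith)
      _ ≤ 2 ^ (m + 1) * p := by
        rw [Real.exp_neg, inv_le_comm₀ (Real.exp_pos _) (by positivity)]
        have h10 : (2 ^ (m + 1) * p)⁻¹ = 1 / p / 2 ^ (m + 1) := by field_simp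
        rw [h10]
        linarith [Real.add_one_le_exp (1 / p / 2 ^ (m + 1))]
  rw [Finset.sum_range_succ]
  have : 3 * 2 ^ (m + 1) * p = 2 * 2 ^ (m + 1) * p + 2 ^ (m + 1) * p := by ring
  linarith

/-- `x = (log (1/p))^(1/8)`. -/
noncomputable def xx (p : ℝ) : ℝ := (Real.log (1 / p)) ^ (((8 : ℕ) : ℝ)⁻¹)

/-- the time scale. -/
noncomputable def tt (r : ℕ) (p : ℝ) : ℕ :=
  (⌈xx p⌉₊ + 3) * ((⌈xx p⌉₊ + 2) * (r * ⌈(xx p) ^ 2 * (1 / p) ^ (r - 1)⌉₊))

lemma tendsto_xx : Tendsto xx (𝓝[>] 0) atTop := by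
  have h1 : Tendsto (fun p : ℝ => Real.log (1 / p)) (𝓝[>] 0) atTop := by
    have := Real.tendsto_log_atTop.comp (tendsto_inv_nhdsGT_zero (𝕜 := ℝ))
    refine this.congr fun p => ?_
    simp
  exact (tendsto_rpow_atTop (by norm_num)).comp h1

lemma xx_pow {p : ℝ} (h0 : 0 < p) (h1 : p ≤ 1) : (xx p) ^ 8 = Real.log (1 / p) := by
  unfold xx
  apply Real.rpow_inv_natCast_pow _ (by norm_num)
  apply Real.log_nonneg
  rw [le_div_iff₀ h0]; linarith

lemma two_pow_ge {x : ℝ} (hx : 200000000 ≤ x) : x ^ 8 ≤ (2 : ℝ) ^ ⌈x⌉₊ := by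
  have h1 : x ≤ ⌈x⌉₊ := Nat.le_ceil x
  have h2 : (2 : ℝ) ^ ⌈x⌉₊ = Real.exp (Real.log 2 * ⌈x⌉₊) := by
    rw [← Real.rpow_natCast, Real.rpow_def_of_pos (by norm_num)]
  have h3 : x / 2 ≤ Real.log 2 * ⌈x⌉₊ := by
    have := Real.log_two_gt_d9
    nlinarith
  have h4 : (x / 2) ^ 9 / (Nat.factorial 9 : ℕ) ≤ Real.exp (x / 2) :=
    Real.pow_div_factorial_le_exp _ (by linarith) 9
  have h5 : x ^ 8 ≤ (x / 2) ^ 9 / (Nat.factorial 9 : ℕ) := by
    rw [le_div_iff₀ (by positivity)]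
    have h6 : ((Nat.factorial 9 : ℕ) : ℝ) = 362880 := by norm_num [Nat.factorial]
    rw [h6]
    have h7 : (x / 2) ^ 9 = x ^ 8 * (x / 512) := by ring
    rw [h7]
    have h8 : 0 ≤ x ^ 8 := by positivity
    have h9 : (362880 : ℝ) ≤ x / 512 := by linarith
    exact mul_le_mul_of_nonneg_left h9 h8
  rw [h2]
  exact h5.trans (h4.trans (Real.exp_le_exp.mpr h3))

lemma prob_bound (r ρ : ℕ) (hr : 3 ≤ r) (hρ : r ≤ ρ) (p : ℝ) (hp0 : 0 < p) (hp1 : p ≤ 1)
    (hx : 200000000 ≤ xx p) :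
    1 - (4 / (xx p) ^ 2 + 3 * 2 ^ r * p) ≤ (law p).real {ω | T r ρ ω ≤ tt r p} := by
  classical
  set x := xx p with hxdef
  have hx8 : x ^ 8 = Real.log (1 / p) := xx_pow hp0 hp1
  have hA : (8 : ℝ) ≤ x ^ 2 := by nlinarith
  have hAp : x ^ 2 * p ≤ 1 := by
    have h1 : x ^ 2 ≤ x ^ 8 := pow_le_pow_right₀ (by linarith) (by norm_num)
    have h2 : Real.log (1 / p) ≤ 1 / p := by
      have := Real.log_le_sub_one_of_pos (show 0 < 1 / p by positivity)
      linarith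
    have h3 : x ^ 2 ≤ 1 / p := by linarith
    calc x ^ 2 * p ≤ 1 / p * p := by gcongr
      _ = 1 := by field_simp
  have hex : ∃ k : ℕ, 1 ≤ (x ^ 2) ^ (2 ^ k) * p := by
    refine ⟨⌈x⌉₊, ?_⟩
    have h1 := two_pow_ge hx
    have h2 : (1 : ℝ) ≤ Real.log (x ^ 2) := by
      rw [Real.le_log_iff_exp_le (by positivity)]
      linarith [Real.exp_one_lt_d9]
    have h3 : 1 / p ≤ (x ^ 2) ^ (2 ^ ⌈x⌉₊) := by
      have h4 : (x ^ 2) ^ (2 ^ ⌈x⌉₊) = Real.exp (Real.log (x ^ 2) * ((2 ^ ⌈x⌉₊ : ℕ) : ℝ)) := by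
        rw [← Real.rpow_natCast (x ^ 2) (2 ^ ⌈x⌉₊), Real.rpow_def_of_pos (by positivity)]
      have h5 : 1 / p = Real.exp (Real.log (1 / p)) := (Real.exp_log (by positivity)).symm
      rw [h4, h5]
      apply Real.exp_le_exp.mpr
      rw [← hx8]
      push_cast
      have h6 : (0 : ℝ) ≤ (2 : ℝ) ^ ⌈x⌉₊ := by positivity
      nlinarith
    calc (1 : ℝ) = 1 / p * p := by field_simp
      _ ≤ (x ^ 2) ^ (2 ^ ⌈x⌉₊) * p := by gcongr
  obtain ⟨J, hJ1, hJ2, hJ3⟩ : ∃ J : ℕ, (∀ k < J, (x ^ 2) ^ (2 ^ k) * p < 1) ∧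
      1 ≤ (x ^ 2) ^ (2 ^ J) * p ∧ J ≤ ⌈x⌉₊ := by
    refine ⟨Nat.find hex, fun k hk => not_le.mp (Nat.find_min hex hk), Nat.find_spec hex, ?_⟩
    apply Nat.find_min'
    have h1 := two_pow_ge hx
    have h2 : (1 : ℝ) ≤ Real.log (x ^ 2) := by
      rw [Real.le_log_iff_exp_le (by positivity)]
      linarith [Real.exp_one_lt_d9]
    have h3 : 1 / p ≤ (x ^ 2) ^ (2 ^ ⌈x⌉₊) := by
      have h4 : (x ^ 2) ^ (2 ^ ⌈x⌉₊) = Real.exp (Real.log (x ^ 2) * ((2 ^ ⌈x⌉₊ : ℕ) : ℝ)) := by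
        rw [← Real.rpow_natCast (x ^ 2) (2 ^ ⌈x⌉₊), Real.rpow_def_of_pos (by positivity)]
      have h5 : 1 / p = Real.exp (Real.log (1 / p)) := (Real.exp_log (by positivity)).symm
      rw [h4, h5]
      apply Real.exp_le_exp.mpr
      rw [← hx8]
      push_cast
      have h6 : (0 : ℝ) ≤ (2 : ℝ) ^ ⌈x⌉₊ := by positivity
      nlinarith
    calc (1 : ℝ) = 1 / p * p := by field_simp
      _ ≤ (x ^ 2) ^ (2 ^ ⌈x⌉₊) * p := by gcongr
  refine fixed r ρ ⌈x ^ 2 * (1 / p) ^ (r - 1)⌉₊ J (tt r p) hr hρ p (x ^ 2) hp0 hp1 hA hAp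
    (Nat.le_ceil _) hJ1 hJ2 ?_
  unfold tt
  rw [← hxdef]
  gcongr

lemma ratio_bound (r : ℕ) (p : ℝ) (hp0 : 0 < p) (hp1 : p ≤ 1) (hx : 200000000 ≤ xx p) :
    (tt r p : ℝ) / ((1 / p) ^ (r - 1) * Real.log (1 / p)) ≤ 40 * r / (xx p) ^ 4 := by
  set x := xx p with hxdef
  have hx8 : x ^ 8 = Real.log (1 / p) := xx_pow hp0 hp1
  have hip : 1 ≤ 1 / p := by rw [le_div_iff₀ hp0]; linarith
  set q : ℝ := (1 / p) ^ (r - 1) with hq
  have hq1 : 1 ≤ q := one_le_pow₀ hip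
  have hc : ((⌈x⌉₊ : ℕ) : ℝ) ≤ x + 1 := (Nat.ceil_lt_add_one (by linarith)).le
  have hc2 : ((⌈x ^ 2 * q⌉₊ : ℕ) : ℝ) ≤ x ^ 2 * q + 1 := (Nat.ceil_lt_add_one (by positivity)).le
  have h1 : (tt r p : ℝ) ≤ 40 * r * x ^ 4 * q := by
    unfold tt
    rw [← hxdef, ← hq]
    push_cast
    calc (((⌈x⌉₊ : ℕ) : ℝ) + 3) * ((((⌈x⌉₊ : ℕ) : ℝ) + 2) * (r * ((⌈x ^ 2 * q⌉₊ : ℕ) : ℝ)))
        ≤ (5 * x) * ((4 * x) * (r * (2 * (x ^ 2 * q)))) := by
          have e1 : ((⌈x⌉₊ : ℕ) : ℝ) + 3 ≤ 5 * x := by linarith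
          have e2 : ((⌈x⌉₊ : ℕ) : ℝ) + 2 ≤ 4 * x := by linarith
          have e3 : ((⌈x ^ 2 * q⌉₊ : ℕ) : ℝ) ≤ 2 * (x ^ 2 * q) := by nlinarith
          gcongr
      _ = 40 * r * x ^ 4 * q := by ring
  rw [← hx8]
  rw [div_le_div_iff₀ (by positivity) (by positivity)]
  calc (tt r p : ℝ) * x ^ 4 ≤ (40 * r * x ^ 4 * q) * x ^ 4 := by gcongr
    _ = 40 * r * (q * x ^ 8) := by ring

/-- **Q1 is false for every `r ≥ 3`.** The occupation time of the origin is not of order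
`p^{-(r-1)} log (1/p)`: there is a time scale `t(p) ≪ p^{-(r-1)} log (1/p)` with
`ℙ(T ≤ t(p)) → 1` as `p → 0+`. -/
theorem result (r ρ : ℕ) (hr : 3 ≤ r) (hρ : r ≤ ρ) :
    ∃ t : ℝ → ℕ,
      Tendsto (fun p : ℝ => (t p : ℝ) / ((1 / p) ^ (r - 1) * Real.log (1 / p))) (𝓝[>] 0) (𝓝 0) ∧
      Tendsto (fun p : ℝ => (law p).real {ω | T r ρ ω ≤ t p}) (𝓝[>] 0) (𝓝 1) := by
  have hev : ∀ᶠ p : ℝ in 𝓝[>] 0, 0 < p ∧ p ≤ 1 ∧ 200000000 ≤ xx p := by
    have h1 : ∀ᶠ p : ℝ in 𝓝[>] 0, 0 < p := eventually_mem_nhdsWithin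
    have h2 : ∀ᶠ p : ℝ in 𝓝[>] 0, p ≤ 1 := by
      have : ∀ᶠ p : ℝ in 𝓝 0, p < 1 := eventually_lt_nhds (by norm_num)
      exact (this.filter_mono nhdsWithin_le_nhds).mono fun p hp => hp.le
    have h3 := tendsto_xx.eventually_ge_atTop 200000000
    filter_upwards [h1, h2, h3] with p a b c using ⟨a, b, c⟩
  refine ⟨tt r, ?_, ?_⟩
  · have hlim : Tendsto (fun p : ℝ => 40 * (r : ℝ) / (xx p) ^ 4) (𝓝[>] 0) (𝓝 0) :=
      ((tendsto_pow_atTop (by norm_num)).comp tendsto_xx).const_div_atTop (40 * (r : ℝ))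
    refine squeeze_zero' ?_ ?_ hlim
    · filter_upwards [hev] with p ⟨a, b, c⟩
      have : 0 ≤ Real.log (1 / p) := by
        apply Real.log_nonneg
        rw [le_div_iff₀ a]; linarith
      positivity
    · filter_upwards [hev] with p ⟨a, b, c⟩
      exact ratio_bound r p a b c
  · have hlim : Tendsto (fun p : ℝ => 1 - (4 / (xx p) ^ 2 + 3 * 2 ^ r * p)) (𝓝[>] 0) (𝓝 1) := by
      have h1 : Tendsto (fun p : ℝ => 4 / (xx p) ^ 2) (𝓝[>] 0) (𝓝 0) :=
        ((tendsto_pow_atTop (by norm_num)).comp tendsto_xx).const_div_atTop 4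
      have h2 : Tendsto (fun p : ℝ => 3 * 2 ^ r * p) (𝓝[>] 0) (𝓝 (3 * 2 ^ r * 0)) :=
        (tendsto_const_nhds.mul tendsto_id).mono_left nhdsWithin_le_nhds
      have h3 := (tendsto_const_nhds (x := (1 : ℝ))).sub (h1.add h2)
      simpa using h3
    refine tendsto_of_tendsto_of_tendsto_of_le_of_le' hlim tendsto_const_nhds ?_ ?_
    · filter_upwards [hev] with p ⟨a, b, c⟩
      exact prob_bound r ρ hr hρ p a b c
    · filter_upwards [hev] with p ⟨a, b, c⟩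
      have := coin_prob p a.le b
      have : IsProbabilityMeasure (law p) := by unfold law; infer_instance
      exact measureReal_le_one

end Pool.Agent.Results.MP_383407_pr.OccupationTimeSmaller
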